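import Pool.Agent.H4.MisPEnd

set_option autoImplicit false

open Pool.Agent.H4.MisP

namespace Pool.Agent.Results.MP_bc0e65_co.AllPeriods

/-- For every `p ≥ 1` there is a set `A` of finite impartial games, closed under sums and options,
and a game `x` in `A` whose class in the misère quotient of `A` has period exactly `p`. -/
theorem result (p : ℕ) (hp : 1 ≤ p) :
    ∃ A : Set Gm, Closed A ∧ ∃ x ∈ A,
      IsLeast {q | 1 ≤ q ∧ ∃ m, 1 ≤ m ∧ Eqv A (mul x (m + q)) (mul x m)} p :=
  main p hp

end Pool.Agent.Results.MP_bc0e65_co.AllPeriods
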